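import Pool.Agent.Lib_HK.TrLink

/-!
Nilsequence decomposition of multiple correlation sequences of commuting transformations.

For every number `l` of commuting invertible measure preserving transformations, every step `s` and
all bounded functions the correlation sequence `a` is, in a unique way, the sum of an `s`-step
nilsequence `N` and a sequence `e` which is uniformly orthogonal to all `s`-step nilsequences; and
`e` is a null sequence if and only if `a` can be approximated in density by `s`-step nilsequences.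
-/

namespace Pool.Agent.Results.MP_820dd4_an.CommutingDecomposition

open MeasureTheory Filter Topology ENNReal

/-- A basic `s`-step nilsequence `n ↦ F (g ^ n • x)`: `G` is a real finite dimensional (Hausdorff,
second countable) Lie group, nilpotent of class at most `s`, `Γ` is a discrete cocompact subgroup,
`g ∈ G`, `x ∈ G ⧸ Γ` and `F : G ⧸ Γ → ℂ` is continuous. -/
def IsBasicNilsequence (s : ℕ) (ψ : ℕ → ℂ) : Prop :=
  ∃ (V : Type) (_ : NormedAddCommGroup V) (_ : NormedSpace ℝ V) (_ : FiniteDimensional ℝ V)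
    (G : Type) (_ : Group G) (_ : TopologicalSpace G) (_ : T2Space G)
    (_ : SecondCountableTopology G) (_ : ChartedSpace V G)
    (_ : LieGroup (modelWithCornersSelf ℝ V) (⊤ : ℕ∞) G)
    (Γ : Subgroup G) (g : G) (x : G ⧸ Γ) (F : C(G ⧸ Γ, ℂ)),
    (⊤ : Subgroup G).lowerCentralSeries s = ⊥ ∧ DiscreteTopology Γ ∧ CompactSpace (G ⧸ Γ) ∧
    ∀ n : ℕ, ψ n = F (g ^ n • x)

/-- An `s`-step nilsequence: a uniform limit of basic `s`-step nilsequences. -/
def IsNilsequence (s : ℕ) (ψ : ℕ → ℂ) : Prop :=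
  ∀ ε > 0, ∃ φ, IsBasicNilsequence s φ ∧ ∀ n, ‖ψ n - φ n‖ ≤ ε

/-- `e` is uniformly orthogonal to all `s`-step nilsequences: for every `s`-step nilsequence `ψ`,
`sup_M |(1/n) ∑_{M ≤ i < M + n} ψ(i) e(i)| → 0` as `n → ∞`. -/
def UniformlyOrthogonal (s : ℕ) (e : ℕ → ℂ) : Prop :=
  ∀ ψ, IsNilsequence s ψ → ∀ ε > 0, ∃ L : ℕ, ∀ n ≥ L, ∀ M : ℕ,
    ‖∑ i ∈ Finset.range n, ψ (M + i) * e (M + i)‖ ≤ ε * n

/-- Let `T_1, …, T_l` be commuting invertible measure preserving transformations of a probability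
space, `f_0, …, f_l ∈ L^∞` and `a(n) = ∫ f_0 · T_1^n f_1 ⋯ T_l^n f_l dμ`. For every `s`,
`a = N + e` with `N` an `s`-step nilsequence and `e` uniformly orthogonal to all `s`-step
nilsequences; `N` is unique; and `(1/M) ∑_{n=1}^M |e(n)| → 0` if and only if for every `ε > 0` some
`s`-step nilsequence `ψ` satisfies `(1/M) ∑_{n=1}^M |a(n) - ψ(n)| ≤ ε` for all large `M`. -/
theorem result (s l : ℕ) {X : Type} [MeasurableSpace X] (μ : Measure X) [IsProbabilityMeasure μ]
    (T : Fin l → X ≃ᵐ X) (hT : ∀ i, MeasurePreserving (T i) μ μ)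
    (hc : ∀ i j x, T i (T j x) = T j (T i x)) (f₀ : X → ℂ) (hf₀ : MemLp f₀ ∞ μ)
    (f : Fin l → X → ℂ) (hf : ∀ i, MemLp (f i) ∞ μ) (a : ℕ → ℂ)
    (ha : ∀ n, a n = ∫ x, f₀ x * ∏ i, f i ((T i)^[n] x) ∂μ) :
    ∃ N e : ℕ → ℂ, IsNilsequence s N ∧ (∀ n, a n = N n + e n) ∧ UniformlyOrthogonal s e ∧
      (∀ N' e' : ℕ → ℂ, IsNilsequence s N' → (∀ n, a n = N' n + e' n) →
        UniformlyOrthogonal s e' → N' = N) ∧
      ((∀ ε > 0, ∃ ψ, IsNilsequence s ψ ∧ ∃ M₀ : ℕ, ∀ M ≥ M₀,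
          ∑ n ∈ Finset.Icc 1 M, ‖a n - ψ n‖ ≤ ε * M) ↔
        Tendsto (fun M : ℕ => (∑ n ∈ Finset.Icc 1 M, ‖e n‖) / M) atTop (𝓝 0)) :=
  Pool.Agent.Nil820.main_decomposition s l μ T hT hc f₀ hf₀ f hf a ha

end Pool.Agent.Results.MP_820dd4_an.CommutingDecomposition
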