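import Pool.Agent.Lib_HK.Fin820
import Pool.Agent.Lib_HK.Univ

/-!
Nilsequence decomposition of multiple correlation sequences of commuting transformations: the full
answer to Q1.

For every number `l` of commuting invertible measure preserving transformations of an arbitrary
probability space (no ergodicity) and all `f_0, …, f_l ∈ L^∞`, the multiple correlation sequence is
the sum of an `l`-step nilsequence and a sequence `e` with `(1/M) ∑_{n=1}^M |e(n)| → 0`.
-/

namespace Pool.Agent.Results.MP_820dd4_an.NilDecomposition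

open MeasureTheory Filter Topology ENNReal

universe u

/-- A basic `s`-step nilsequence `n ↦ F (g ^ n • x)`: `G` is a real finite dimensional (Hausdorff,
second countable) Lie group, nilpotent of class at most `s`, `Γ` is a discrete cocompact subgroup,
`g ∈ G`, `x ∈ G ⧸ Γ` and `F : G ⧸ Γ → ℂ` is continuous. -/
def IsBasicNilsequence (s : ℕ) (ψ : ℕ → ℂ) : Prop :=
  ∃ (V : Type) (_ : NormedAddCommGroup V) (_ : NormedSpace ℝ V) (_ : FiniteDimensional ℝ V)
    (G : Type) (_ : Group G) (_ : TopologicalSpace G) (_ : T2Space G)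
    (_ : SecondCountableTopology G) (_ : ChartedSpace V G)
    (_ : LieGroup (modelWithCornersSelf ℝ V) (⊤ : ℕ∞) G)
    (Γ : Subgroup G) (g : G) (x : G ⧸ Γ) (F : C(G ⧸ Γ, ℂ)),
    (⊤ : Subgroup G).lowerCentralSeries s = ⊥ ∧ DiscreteTopology Γ ∧ CompactSpace (G ⧸ Γ) ∧
    ∀ n : ℕ, ψ n = F (g ^ n • x)

/-- An `s`-step nilsequence: a uniform limit of basic `s`-step nilsequences. -/
def IsNilsequence (s : ℕ) (ψ : ℕ → ℂ) : Prop :=
  ∀ ε > 0, ∃ φ, IsBasicNilsequence s φ ∧ ∀ n, ‖ψ n - φ n‖ ≤ ε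

/-- **Q1.** Let `T_1, …, T_l` be commuting invertible measure preserving transformations of a
probability space, `f_0, …, f_l ∈ L^∞` and `a(n) = ∫ f_0 · T_1^n f_1 ⋯ T_l^n f_l dμ`. Then
`a = N + e` with `N` an `l`-step nilsequence and `(1/M) ∑_{n=1}^M |e(n)| → 0`. -/
theorem result (l : ℕ) {X : Type u} [MeasurableSpace X] (μ : Measure X) [IsProbabilityMeasure μ]
    (T : Fin l → X ≃ᵐ X) (hT : ∀ i, MeasurePreserving (T i) μ μ)
    (hc : ∀ i j x, T i (T j x) = T j (T i x)) (f₀ : X → ℂ) (hf₀ : MemLp f₀ ∞ μ)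
    (f : Fin l → X → ℂ) (hf : ∀ i, MemLp (f i) ∞ μ) (a : ℕ → ℂ)
    (ha : ∀ n, a n = ∫ x, f₀ x * ∏ i, f i ((T i)^[n] x) ∂μ) :
    ∃ N e : ℕ → ℂ, IsNilsequence l N ∧ (∀ n, a n = N n + e n) ∧
      Tendsto (fun M : ℕ => (∑ n ∈ Finset.Icc 1 M, ‖e n‖) / M) atTop (𝓝 0) :=
  Pool.Agent.Nil820.nil_decomposition_univ (Pool.Agent.Nil820.strThm l) μ T hT hc f₀ hf₀ f hf a ha

end Pool.Agent.Results.MP_820dd4_an.NilDecomposition
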